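import Pool.Agent.H912R3.QO.Main

set_option autoImplicit false

/-! # Composite values of a monic quadratic polynomial at an arbitrary set of prescribed places

Let `x ^ 2 + B x + C`, `B` odd, be irreducible (for instance `x ^ 2 + 3 x + 1`). For every finite set `S` of integers of
size at most `exp ((log X) ^ A)` with at most `c log X log log X` elements, every interval of length `X`
contains a `k` for which all the values at `k + s`, `s ∈ S`, are composite, with a prime factor at most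
`exp ((log X) ^ (1 / 20))`. -/

namespace Pool.Agent.Results.MP_d57abb_nt.PrescribedComposites

theorem result : ∀ B C : ℤ, Odd B → ¬ IsSquare (B ^ 2 - 4 * C) → ∀ A : ℕ, ∃ c : ℝ, 0 < c ∧ ∃ X₀ : ℝ,
    ∀ X : ℝ, X₀ ≤ X → ∀ S : Finset ℤ, (∀ s ∈ S, |(s : ℝ)| ≤ Real.exp ((Real.log X) ^ A)) →
    (S.card : ℝ) ≤ c * (Real.log X * Real.log (Real.log X)) →
    ∀ z : ℤ, ∃ k : ℤ, z < k ∧ (k : ℝ) ≤ z + X ∧
      ∀ s ∈ S, ¬ Prime ((k + s) ^ 2 + B * (k + s) + C) ∧
        ∃ p : ℕ, p.Prime ∧ (p : ℝ) ≤ Real.exp ((Real.log X) ^ (1 / 20 : ℝ)) ∧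
          (p : ℤ) ∣ (k + s) ^ 2 + B * (k + s) + C := by
  intro B C _ hsq A
  have hD0 : B ^ 2 - 4 * C ≠ 0 := by
    intro h
    exact hsq (h ▸ ⟨0, by norm_num⟩)
  obtain ⟨c, hc, X₀, h⟩ := Pool.Agent.H912R3.QO.two_squares_odd (B ^ 2 - 4 * C) hD0 hsq (A + 1)
  refine ⟨c / 2, by positivity, max X₀ (Real.exp (max 20 (4 * (|B| : ℝ) + 8))), fun X hX S hS hc2 z => ?_⟩
  have hX0 : X₀ ≤ X := (le_max_left _ _).trans hX
  have hXe : Real.exp (max 20 (4 * (|B| : ℝ) + 8)) ≤ X := (le_max_right _ _).trans hX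
  have hXpos : 0 < X := (Real.exp_pos _).trans_le hXe
  have hLm : max 20 (4 * (|B| : ℝ) + 8) ≤ Real.log X := by
    rw [Real.le_log_iff_exp_le hXpos]; exact hXe
  have hL20 : 20 ≤ Real.log X := (le_max_left _ _).trans hLm
  have hLB : 4 * (|B| : ℝ) + 8 ≤ Real.log X := (le_max_right _ _).trans hLm
  have hX1 : 1 ≤ X := (Real.one_le_exp ((by norm_num : (0 : ℝ) ≤ 20).trans (le_max_left _ _))).trans hXe
  set L := Real.log X with hL
  have hLA : 1 ≤ L ^ A := one_le_pow₀ (by linarith)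
  have hE1 : Real.exp (L ^ A) ≤ Real.exp (L ^ (A + 1)) / 8 := by
    rw [le_div_iff₀ (by norm_num)]
    have h8 : (8 : ℝ) ≤ Real.exp 7 := by linarith [Real.add_one_le_exp (7 : ℝ)]
    calc Real.exp (L ^ A) * 8 ≤ Real.exp (L ^ A) * Real.exp 7 := by gcongr
      _ = Real.exp (L ^ A + 7) := by rw [Real.exp_add]
      _ ≤ Real.exp (L ^ (A + 1)) := by
          apply Real.exp_le_exp.2
          rw [pow_succ]
          nlinarith
  have hE2 : L ≤ Real.exp (L ^ (A + 1)) := by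
    have h1 : L ≤ L ^ (A + 1) := by
      rw [pow_succ]
      nlinarith
    have h2 := Real.add_one_le_exp (L ^ (A + 1))
    linarith
  set F : Finset (ℤ × ℕ) := S.image (fun s => (2 * s + B, 1)) ∪ S.image (fun s => (2 * s + B - 1, 1)) with hF
  have hF1 : ∀ x ∈ F, 1 ≤ x.2 ∧ |(x.1 : ℝ)| ≤ Real.exp (L ^ (A + 1)) ∧
      (x.2 : ℝ) ≤ Real.exp (L ^ (A + 1)) := by
    intro x hx
    rw [hF, Finset.mem_union, Finset.mem_image, Finset.mem_image] at hx
    have hone : ((1 : ℕ) : ℝ) ≤ Real.exp (L ^ (A + 1)) := by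
      push_cast
      linarith
    rcases hx with ⟨s, hs, rfl⟩ | ⟨s, hs, rfl⟩
    · refine ⟨le_rfl, ?_, hone⟩
      have h1 := hS s hs
      push_cast
      calc |2 * (s : ℝ) + B| ≤ |2 * (s : ℝ)| + |(B : ℝ)| := abs_add_le _ _
        _ = 2 * |(s : ℝ)| + |(B : ℝ)| := by rw [abs_mul]; norm_num
        _ ≤ _ := by
            have h3 : (|B| : ℝ) ≤ Real.exp (L ^ (A + 1)) / 4 := by linarith
            linarith
    · refine ⟨le_rfl, ?_, hone⟩
      have h1 := hS s hs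
      push_cast
      calc |2 * (s : ℝ) + B - 1| ≤ |2 * (s : ℝ) + B| + |(1 : ℝ)| := abs_sub _ _
        _ ≤ |2 * (s : ℝ)| + |(B : ℝ)| + |(1 : ℝ)| := by gcongr; exact abs_add_le _ _
        _ = 2 * |(s : ℝ)| + |(B : ℝ)| + 1 := by rw [abs_mul]; norm_num
        _ ≤ _ := by
            have h3 : (|B| : ℝ) + 2 ≤ Real.exp (L ^ (A + 1)) / 4 := by linarith
            linarith
  have hFs : ∑ x ∈ F, ((x.2 : ℝ) / Nat.totient x.2) ^ 2 ≤ c * (L * Real.log L) := by
    have h1 : ∀ x ∈ F, ((x.2 : ℝ) / Nat.totient x.2) ^ 2 = 1 := by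
      intro x hx
      rw [hF, Finset.mem_union, Finset.mem_image, Finset.mem_image] at hx
      rcases hx with ⟨s, hs, rfl⟩ | ⟨s, hs, rfl⟩ <;> simp
    rw [Finset.sum_congr rfl h1, Finset.sum_const, nsmul_eq_mul, mul_one]
    have h2 : F.card ≤ S.card + S.card :=
      (Finset.card_union_le _ _).trans (Nat.add_le_add Finset.card_image_le Finset.card_image_le)
    have h3 : (F.card : ℝ) ≤ S.card + S.card := by exact_mod_cast h2
    linarith
  obtain ⟨n, n1, n2, n3⟩ := h X hX0 F hF1 hFs (2 * z + 1)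
  have key : ∀ k s : ℤ, ∀ p : ℕ, p.Prime → p ≠ 2 → (p : ℤ) ∣ 4 * ((k + s) ^ 2 + B * (k + s) + C) →
      4 * (p : ℤ) < |4 * ((k + s) ^ 2 + B * (k + s) + C)| →
      (p : ℤ) ∣ (k + s) ^ 2 + B * (k + s) + C ∧ ¬ Prime ((k + s) ^ 2 + B * (k + s) + C) := by
    intro k s p hp hp2 hd hlt
    have hpi : Prime (p : ℤ) := Nat.prime_iff_prime_int.1 hp
    have h1 : (p : ℤ) ∣ (k + s) ^ 2 + B * (k + s) + C := by
      rcases hpi.dvd_or_dvd hd with h2 | h2
      · exfalso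
        have h3 : p ∣ 4 := by exact_mod_cast h2
        have h4 : p ∣ 2 := hp.dvd_of_dvd_pow (show p ∣ 2 ^ 2 from h3)
        exact hp2 ((Nat.prime_dvd_prime_iff_eq hp Nat.prime_two).1 h4)
      · exact h2
    refine ⟨h1, fun hpr => ?_⟩
    have h5 : (p : ℤ).natAbs = ((k + s) ^ 2 + B * (k + s) + C).natAbs :=
      Int.associated_iff_natAbs.1 ((Prime.dvd_prime_iff_associated hpi hpr).1 h1)
    rw [abs_mul, Int.abs_eq_natAbs ((k + s) ^ 2 + B * (k + s) + C), ← h5, Int.natAbs_natCast] at hlt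
    norm_num at hlt
  rcases Int.even_or_odd' n with ⟨k, rfl | rfl⟩
  · refine ⟨k, by omega, ?_, fun s hs => ?_⟩
    · push_cast at n2
      linarith
    · obtain ⟨p, hp, hp2, hpE, hpd, hpl⟩ := n3 (2 * s + B, 1) (by
        rw [hF, Finset.mem_union, Finset.mem_image]
        exact Or.inl ⟨s, hs, rfl⟩)
      have e : (2 * k + (2 * s + B)) ^ 2 + -((B ^ 2 - 4 * C) * ((1 : ℕ) : ℤ) ^ 2) =
          4 * ((k + s) ^ 2 + B * (k + s) + C) := by push_cast; ring
      simp only at hpd hpl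
      rw [e] at hpd hpl
      obtain ⟨q1, q2⟩ := key k s p hp hp2 hpd hpl
      exact ⟨q2, p, hp, hpE, q1⟩
  · refine ⟨k, by omega, ?_, fun s hs => ?_⟩
    · push_cast at n2
      linarith
    · obtain ⟨p, hp, hp2, hpE, hpd, hpl⟩ := n3 (2 * s + B - 1, 1) (by
        rw [hF, Finset.mem_union, Finset.mem_image, Finset.mem_image]
        exact Or.inr ⟨s, hs, rfl⟩)
      have e : (2 * k + 1 + (2 * s + B - 1)) ^ 2 + -((B ^ 2 - 4 * C) * ((1 : ℕ) : ℤ) ^ 2) =
          4 * ((k + s) ^ 2 + B * (k + s) + C) := by push_cast; ring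
      simp only at hpd hpl
      rw [e] at hpd hpl
      obtain ⟨q1, q2⟩ := key k s p hp hp2 hpd hpl
      exact ⟨q2, p, hp, hpE, q1⟩

end Pool.Agent.Results.MP_d57abb_nt.PrescribedComposites
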