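import Pool.Agent.H359R3.SetVersion

/-!
Let `S` be a set containing a prime of the form `x^2+3xy+y^2`. For arbitrarily large `X`, at least
`X / (log X)^38` of the integers `k` in `(X, 2X]` satisfy `k^2+3k+1 = s^2 m` with `m` squarefree,
`s ≤ (log X)^41`, and an odd number of primes of `S` dividing `m`.
-/

theorem Pool.Agent.Results.MP_d57abb_nt.PrimeSetParity.result
    (S : Set ℕ)
    (hS : ∃ p ∈ S, p.Prime ∧ ∃ x y : ℤ, (p : ℤ) = x ^ 2 + 3 * (x * y) + y ^ 2) (X0 : ℕ) :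
    ∃ X : ℕ, X0 ≤ X ∧ (X : ℝ) / Real.log X ^ 38 ≤
      (Set.ncard {k : ℕ | X < k ∧ k ≤ 2 * X ∧ ∃ s m : ℕ, k ^ 2 + 3 * k + 1 = s ^ 2 * m ∧
        Squarefree m ∧ (s : ℝ) ≤ Real.log X ^ 41 ∧
        Odd (Set.ncard {p : ℕ | p.Prime ∧ p ∣ m ∧ p ∈ S})} : ℝ) := by
  obtain ⟨p, hpS, hp, x, y, hxy⟩ := hS
  obtain ⟨X, hX, hc⟩ := H359R3.main_set_int 3 1 (by norm_num) S
    ⟨p, hpS, hp, x, y, by rw [hxy]; ring⟩ X0
  refine ⟨X, hX, ?_⟩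
  have heq : H359R3.QSS 3 1 S X = {k : ℕ | X < k ∧ k ≤ 2 * X ∧ ∃ s m : ℕ,
      k ^ 2 + 3 * k + 1 = s ^ 2 * m ∧ Squarefree m ∧
        (s : ℝ) ≤ Real.log X ^ 41 ∧ Odd (Set.ncard {p : ℕ | p.Prime ∧ p ∣ m ∧ p ∈ S})} := by
    unfold H359R3.QSS
    ext k
    simp only [Set.mem_ofPred_eq]
    constructor
    · rintro ⟨h1, h2, s, m, h3, h4⟩
      exact ⟨h1, h2, s, m, by exact_mod_cast h3, h4⟩
    · rintro ⟨h1, h2, s, m, h3, h4⟩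
      exact ⟨h1, h2, s, m, by exact_mod_cast h3, h4⟩
  rw [heq] at hc
  exact hc
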